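import Pool.Agent.N206.HJ.Final
import Pool.Agent.N206.HJ.Univ

set_option autoImplicit false

/-!
A countable residually finite hereditarily just infinite group which admits a self-similar action
on a rooted tree and is not linear over any field.
-/

namespace Pool.Agent.Results.MP_8eb9f8_al.NonLinearHJI

/-- residually finite: every non-trivial element is avoided by a normal subgroup of finite
index -/
def ResiduallyFinite (G : Type) [Group G] : Prop :=
  ∀ g : G, g ≠ 1 → ∃ N : Subgroup G, N.Normal ∧ N.FiniteIndex ∧ g ∉ N

/-- just infinite: infinite, and every non-trivial normal subgroup has finite index -/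
def JustInfinite (G : Type) [Group G] : Prop :=
  Infinite G ∧ ∀ N : Subgroup G, N.Normal → N ≠ ⊥ → N.FiniteIndex

/-- hereditarily just infinite: the group and all its subgroups of finite index are just
infinite -/
def HereditarilyJustInfinite (G : Type) [Group G] : Prop :=
  JustInfinite G ∧ ∀ H : Subgroup G, H.FiniteIndex → JustInfinite H

/-- a self-similar action: a faithful action on the set of finite words over a finite alphabet
`X` with at least two letters, such that for all `g` and all letters `x` there are a letter `y`
and an element `h` with `g (x w) = y (h w)` for all words `w` -/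
def HasSelfSimilarAction (G : Type) [Group G] : Prop :=
  ∃ (X : Type) (_ : Fintype X), 2 ≤ Fintype.card X ∧
    ∃ act : G →* Equiv.Perm (List X), Function.Injective act ∧
      ∀ (g : G) (x : X), ∃ (y : X) (h : G), ∀ w : List X, act g (x :: w) = y :: act h w

/-- linear: embeds into the invertible matrices of some size over some field -/
def IsLinear.{u} (G : Type) [Group G] : Prop :=
  ∃ (K : Type u) (_ : Field K) (n : ℕ) (f : G →* Matrix.GeneralLinearGroup (Fin n) K),
    Function.Injective f

theorem justInfinite_of_top {G : Type} [Group G] (h : JustInfinite (⊤ : Subgroup G)) :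
    JustInfinite G := by
  constructor
  · have := h.1
    exact Infinite.of_injective (fun x : (⊤ : Subgroup G) => (x : G)) Subtype.val_injective
  · intro N hN hb
    have h1 : (N.subgroupOf ⊤).FiniteIndex := by
      refine h.2 (N.subgroupOf ⊤) inferInstance ?_
      intro h2
      apply hb
      rw [Subgroup.subgroupOf_eq_bot, disjoint_top] at h2
      exact h2
    constructor
    intro h0
    apply h1.index_ne_zero
    rw [← Subgroup.relIndex_top_right] at h0
    exact h0

/-- the answer -/
theorem result.{u} : ∃ (G : Type) (_ : Group G), Countable G ∧ ResiduallyFinite G ∧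
    HereditarilyJustInfinite G ∧ HasSelfSimilarAction G ∧ ¬ IsLinear.{u} G := by
  have : Fact (Nat.Prime 2) := ⟨Nat.prime_two⟩
  obtain ⟨G, iG, hc, hRF, hHJI, hSS, hL⟩ := Pool.Agent.N206.HJ.final 2
  refine ⟨G, iG, hc, hRF, ⟨justInfinite_of_top (hHJI ⊤ inferInstance), hHJI⟩, hSS, ?_⟩
  rintro ⟨K, iK, n, f, hf⟩
  obtain ⟨K', iK', f', hf'⟩ := Pool.Agent.N206.HJ.linear_down f hf
  exact hL ⟨K', iK', n, f', hf'⟩

end Pool.Agent.Results.MP_8eb9f8_al.NonLinearHJI
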